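import Mathlib

namespace Pool.Agent.Results.MP_f07be6_gt.MuEqOne

open Real Polynomial
open scoped ContDiff

/-- `γ` is (the `2π`-periodic lift of) a smooth closed curve in `ℝⁿ` whose first `n`
derivatives are linearly independent at every parameter. -/
def IsNondegenerate (n : ℕ) (γ : ℝ → EuclideanSpace ℝ (Fin n)) : Prop :=
  ContDiff ℝ ∞ γ ∧ Function.Periodic γ (2 * π) ∧
    ∀ t, LinearIndependent ℝ (fun i : Fin n => iteratedDeriv (i + 1) γ t)

/-- The plane unit circle traversed `m` times, `c_m(t) = (cos mt, sin mt, 0, …, 0)`. -/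
noncomputable def circleCurve (n m : ℕ) (t : ℝ) : EuclideanSpace ℝ (Fin n) :=
  WithLp.toLp 2 fun i => if (i : ℕ) = 0 then cos (m * t) else if (i : ℕ) = 1 then sin (m * t)
    else 0

/-- Every `C^∞`-neighbourhood of `c_m` contains a nondegenerate closed curve. -/
def Perturbable (n m : ℕ) : Prop :=
  ∀ (K : ℕ) (ε : ℝ), 0 < ε → ∃ γ : ℝ → EuclideanSpace ℝ (Fin n), IsNondegenerate n γ ∧
    ∀ k ≤ K, ∀ t, ‖iteratedDeriv k γ t - iteratedDeriv k (circleCurve n m) t‖ < ε

section trig

variable {n : ℕ} {ι : Type} [Fintype ι]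

/-- the `k`-th derivative of a trigonometric curve with frequencies `fr` and coefficients `z` -/
noncomputable def G (fr : ι → ℕ) (z : Fin n → ι → ℂ) (k : ℕ) (t : ℝ) :
    EuclideanSpace ℝ (Fin n) :=
  WithLp.toLp 2 fun i => (∑ a, z i a * (Complex.I * fr a) ^ k *
    Complex.exp (Complex.I * fr a * t)).re

theorem G_apply (fr : ι → ℕ) (z : Fin n → ι → ℂ) (k : ℕ) (t : ℝ) (i : Fin n) :
    G fr z k t i = (∑ a, z i a * (Complex.I * fr a) ^ k *
      Complex.exp (Complex.I * fr a * t)).re := rfl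

theorem hasDerivAt_G_apply (fr : ι → ℕ) (z : Fin n → ι → ℂ) (k : ℕ) (t : ℝ) (i : Fin n) :
    HasDerivAt (fun t => G fr z k t i) (G fr z (k + 1) t i) t := by
  simp only [G_apply]
  have h : HasDerivAt (fun s : ℂ => ∑ a, z i a * (Complex.I * fr a) ^ k *
      Complex.exp (Complex.I * fr a * s)) (∑ a, z i a * (Complex.I * fr a) ^ (k + 1) *
      Complex.exp (Complex.I * fr a * t)) (t : ℂ) := by
    refine HasDerivAt.fun_sum fun a _ => ?_
    have h1 : HasDerivAt (fun s : ℂ => Complex.I * fr a * s) (Complex.I * fr a) (t : ℂ) := by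
      simpa using (hasDerivAt_id (t : ℂ)).const_mul (Complex.I * fr a)
    have h2 := h1.cexp.const_mul (z i a * (Complex.I * fr a) ^ k)
    have h3 : z i a * (Complex.I * fr a) ^ (k + 1) * Complex.exp (Complex.I * fr a * t)
        = z i a * (Complex.I * fr a) ^ k *
          (Complex.exp (Complex.I * fr a * (t : ℂ)) * (Complex.I * fr a)) := by ring
    rw [h3]
    exact h2
  exact h.real_of_complex

theorem hasDerivAt_G (fr : ι → ℕ) (z : Fin n → ι → ℂ) (k : ℕ) (t : ℝ) :
    HasDerivAt (G fr z k) (G fr z (k + 1) t) t := by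
  rw [hasDerivAt_iff_hasFDerivAt, ← hasFDerivWithinAt_univ, hasFDerivWithinAt_euclidean]
  intro i
  rw [hasFDerivWithinAt_univ]
  have h := (hasDerivAt_G_apply fr z k t i).hasFDerivAt
  have h2 : (PiLp.proj 2 (fun _ : Fin n => ℝ) i : EuclideanSpace ℝ (Fin n) →L[ℝ] ℝ) ∘L
      ContinuousLinearMap.toSpanSingleton ℝ (G fr z (k + 1) t)
      = ContinuousLinearMap.toSpanSingleton ℝ (G fr z (k + 1) t i) := by
    ext
    simp
  rw [← h2] at h
  exact h

theorem iteratedDeriv_G (fr : ι → ℕ) (z : Fin n → ι → ℂ) (k : ℕ) :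
    iteratedDeriv k (G fr z 0) = G fr z k := by
  induction k with
  | zero => simp
  | succ k ih =>
    rw [iteratedDeriv_succ, ih]
    funext t
    exact (hasDerivAt_G fr z k t).deriv

theorem contDiff_G (fr : ι → ℕ) (z : Fin n → ι → ℂ) : ContDiff ℝ ∞ (G fr z 0) := by
  rw [contDiff_infty]
  intro k
  have : ∀ (k j : ℕ), ContDiff ℝ k (G fr z j) := by
    intro k
    induction k with
    | zero =>
      intro j
      exact contDiff_zero.2 (continuous_iff_continuousAt.2 fun t => (hasDerivAt_G fr z j t).continuousAt)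
    | succ k ih =>
      intro j
      have hd : deriv (G fr z j) = G fr z (j + 1) := by
        funext t; exact (hasDerivAt_G fr z j t).deriv
      have : ((k + 1 : ℕ) : WithTop ℕ∞) = (k : WithTop ℕ∞) + 1 := by push_cast; rfl
      rw [this, contDiff_succ_iff_deriv]
      refine ⟨fun t => (hasDerivAt_G fr z j t).differentiableAt, ?_, ?_⟩
      · intro h; simp at h
      · rw [hd]; exact ih _
  exact this k 0

theorem periodic_G (fr : ι → ℕ) (z : Fin n → ι → ℂ) (k : ℕ) :
    Function.Periodic (G fr z k) (2 * π) := by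
  intro t
  ext i
  simp only [G_apply]
  congr 1
  refine Finset.sum_congr rfl fun a _ => ?_
  congr 1
  rw [Complex.exp_eq_exp_iff_exists_int]
  refine ⟨fr a, ?_⟩
  push_cast
  ring

/-- the algebraic form of nondegeneracy of a trigonometric curve -/
def Nondeg (fr : ι → ℕ) (z : Fin n → ι → ℂ) : Prop :=
  ∀ (t : ℝ) (q : ℝ[X]), q.degree < n →
    (∀ i, (∑ a, z i a * (Complex.I * fr a) * aeval (Complex.I * (fr a : ℂ)) q *
      Complex.exp (Complex.I * fr a * t)).re = 0) → q = 0

theorem Nondeg.isNondegenerate {fr : ι → ℕ} {z : Fin n → ι → ℂ} (h : Nondeg fr z) :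
    IsNondegenerate n (G fr z 0) := by
  refine ⟨contDiff_G fr z, periodic_G fr z 0, fun t => ?_⟩
  rw [Fintype.linearIndependent_iff]
  intro g hg
  have hq := h t (∑ k : Fin n, C (g k) * X ^ (k : ℕ)) ?_ ?_
  · intro i
    have := congrArg (fun p : ℝ[X] => p.coeff i) hq
    simp only [finsetSum_coeff, coeff_C_mul, coeff_X_pow, coeff_zero] at this
    rw [Finset.sum_eq_single i] at this
    · simpa using this
    · intro j _ hj
      have : (i : ℕ) ≠ j := fun h => hj (Fin.ext h.symm)
      simp [this]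
    · simp
  · refine (degree_sum_fin_lt _)
  · intro i
    have h1 := congrArg (fun v : EuclideanSpace ℝ (Fin n) => v i) hg
    simp only [iteratedDeriv_G] at h1
    have h2 : (∑ k : Fin n, g k • G fr z (k + 1) t) i = ∑ k : Fin n, g k * G fr z (k + 1) t i := by
      simp
    rw [h2] at h1
    simp only [PiLp.zero_apply] at h1
    rw [← h1]
    simp only [G_apply, map_sum, map_mul, aeval_C, map_pow, aeval_X]
    have h3 : ∀ k : Fin n, g k * (∑ a, z i a * (Complex.I * fr a) ^ ((k : ℕ) + 1) *
      Complex.exp (Complex.I * fr a * t)).re = (∑ a, (g k : ℂ) * (z i a * (Complex.I * fr a) ^ ((k : ℕ) + 1) *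
      Complex.exp (Complex.I * fr a * t))).re := by
      intro k
      rw [← Finset.mul_sum, Complex.re_ofReal_mul]
    simp only [h3]
    rw [← Complex.re_sum, Finset.sum_comm]
    congr 1
    refine Finset.sum_congr rfl fun a _ => ?_
    rw [Finset.mul_sum, Finset.sum_mul]
    refine Finset.sum_congr rfl fun k _ => ?_
    simp only [Complex.coe_algebraMap]
    ring

theorem eq_zero_of_aeval_I {q : ℝ[X]} (hq : q.degree < 2) (h : aeval Complex.I q = 0) : q = 0 := by
  obtain ⟨a, b, rfl⟩ : ∃ a b : ℝ, q = C a * X + C b :=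
    ⟨_, _, eq_X_add_C_of_degree_le_one (by
      by_cases h0 : q = 0
      · simp [h0]
      · rw [degree_eq_natDegree h0] at hq ⊢
        have : q.natDegree < 2 := by exact_mod_cast hq
        exact_mod_cast (by omega : q.natDegree ≤ 1))⟩
  simp only [map_add, map_mul, aeval_C, aeval_X, Complex.coe_algebraMap] at h
  have h1 := congrArg Complex.re h
  have h2 := congrArg Complex.im h
  simp at h1 h2
  simp [h1, h2]

/-- frequencies of the suspended curve -/
def freq (fr : ι → ℕ) : Option ι → ℕ := fun o => o.elim 1 fun a => 2 * fr a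

/-- coefficients of the suspended curve: the unit circle in the first two coordinates, and
`η` times a solution `g` of `g'' + g = δ(2t)` in the others -/
noncomputable def susp (fr : ι → ℕ) (z : Fin n → ι → ℂ) (η : ℝ) : Fin (n + 2) → Option ι → ℂ :=
  Fin.cons (fun o => o.elim 1 fun _ => 0) (Fin.cons (fun o => o.elim (-Complex.I) fun _ => 0)
    fun i o => o.elim 0 fun a => η * (z i a / (1 - (2 * fr a : ℂ) ^ 2)))

theorem Nondeg.susp {fr : ι → ℕ} {z : Fin n → ι → ℂ} (h : Nondeg fr z) {η : ℝ} (hη : η ≠ 0) :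
    Nondeg (freq fr) (susp fr z η) := by
  intro t q hqd hq
  have h0 := hq 0
  have h1 := hq 1
  simp only [MuEqOne.susp, freq, Fintype.sum_option, Option.elim, Fin.cons_zero, zero_mul, Finset.sum_const_zero,
    add_zero, one_mul, Nat.cast_one, mul_one] at h0
  have e1 : (1 : Fin (n + 2)) = Fin.succ 0 := rfl
  rw [e1] at h1
  simp only [MuEqOne.susp, freq, Fintype.sum_option, Option.elim, Fin.cons_succ, Fin.cons_zero, zero_mul,
    Finset.sum_const_zero, add_zero, Nat.cast_one, mul_one] at h1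
  have hI : aeval Complex.I q = 0 := by
    have hw : Complex.I * aeval Complex.I q * Complex.exp (Complex.I * t) = 0 := by
      apply Complex.ext
      · simpa using h0
      · have : -Complex.I * Complex.I * aeval Complex.I q * Complex.exp (Complex.I * t)
          = -Complex.I * (Complex.I * aeval Complex.I q * Complex.exp (Complex.I * t)) := by ring
        rw [this] at h1
        rw [Complex.mul_re] at h1
        simpa using h1
    simpa [Complex.exp_ne_zero] using hw
  have hmon : (X ^ 2 + 1 : ℝ[X]).Monic := by monicity!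
  have hdeg2 : (X ^ 2 + 1 : ℝ[X]).degree = 2 := by compute_degree!
  have hrem : q %ₘ (X ^ 2 + 1) = 0 := by
    apply eq_zero_of_aeval_I
    · have := degree_modByMonic_lt q hmon
      rwa [hdeg2] at this
    · have h3 := congrArg (aeval Complex.I) (modByMonic_add_div q (X ^ 2 + 1 : ℝ[X]))
      rw [hI] at h3
      simpa using h3
  obtain ⟨q2, rfl⟩ := (modByMonic_eq_zero_iff_dvd hmon).1 hrem
  suffices hq2 : q2 = 0 by simp [hq2]
  by_contra hne
  have hd2 : q2.degree < n := by
    rw [degree_mul, hdeg2, degree_eq_natDegree hne] at hqd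
    rw [degree_eq_natDegree hne]
    have : ((2 + q2.natDegree : ℕ) : WithBot ℕ) < ((n + 2 : ℕ) : WithBot ℕ) := by
      simpa using hqd
    have h4 : 2 + q2.natDegree < n + 2 := by exact_mod_cast this
    exact_mod_cast (by omega : q2.natDegree < n)
  have hnat : (q2.comp (C 2 * X)).natDegree = q2.natDegree := by
    rw [natDegree_comp, natDegree_C_mul_X _ (by norm_num), mul_one]
  have hne3 : q2.comp (C 2 * X) ≠ 0 := by
    intro h5
    have h6 := congrArg (fun p : ℝ[X] => p.comp (C (1/2) * X)) h5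
    simp only [comp_assoc, zero_comp] at h6
    have h7 : (C 2 * X : ℝ[X]).comp (C (1/2) * X) = X := by
      simp only [mul_comp, C_comp, X_comp]
      rw [← mul_assoc, ← C_mul]
      norm_num
    rw [h7, comp_X] at h6
    exact hne h6
  refine hne3 (h (2 * t) _ ?_ fun i => ?_)
  · rw [degree_eq_natDegree hne3, hnat, ← degree_eq_natDegree hne]
    exact hd2
  · have h8 := hq (Fin.succ (Fin.succ i))
    simp only [MuEqOne.susp, freq, Fintype.sum_option, Option.elim, Fin.cons_succ, zero_mul,
      zero_add] at h8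
    have h9 : (∑ a, (η : ℂ) * (z i a / (1 - (2 * fr a : ℂ) ^ 2)) * (Complex.I * ((2 * fr a : ℕ) : ℂ)) *
        aeval (Complex.I * ((2 * fr a : ℕ) : ℂ)) ((X ^ 2 + 1) * q2) *
          Complex.exp (Complex.I * ((2 * fr a : ℕ) : ℂ) * t)) = ((2 * η : ℝ) : ℂ) *
        ∑ a, z i a * (Complex.I * fr a) * aeval (Complex.I * (fr a : ℂ)) (q2.comp (C 2 * X)) *
          Complex.exp (Complex.I * fr a * ((2 * t : ℝ) : ℂ)) := by
      rw [Finset.mul_sum]
      refine Finset.sum_congr rfl fun a _ => ?_
      have hnz : (1 - (2 * fr a : ℂ) ^ 2) ≠ 0 := by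
        intro h10
        have h11 : ((2 * fr a : ℕ) : ℂ) ^ 2 = 1 := by
          push_cast
          linear_combination -h10
        have h12 : (2 * fr a) ^ 2 = 1 := by exact_mod_cast h11
        have h13 : 2 * fr a = 1 := by
          nlinarith [Nat.zero_le (fr a)]
        omega
      have h14 : aeval (Complex.I * (fr a : ℂ)) (q2.comp (C 2 * X))
          = aeval (Complex.I * ((2 * fr a : ℕ) : ℂ)) q2 := by
        rw [aeval_comp]
        congr 1
        simp
        ring_nf
      have h15 : aeval (Complex.I * ((2 * fr a : ℕ) : ℂ)) ((X ^ 2 + 1) * q2 : ℝ[X])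
          = (1 - (2 * fr a : ℂ) ^ 2) * aeval (Complex.I * ((2 * fr a : ℕ) : ℂ)) q2 := by
        simp only [map_mul, map_add, map_pow, aeval_X, map_one]
        push_cast
        rw [mul_pow, Complex.I_sq]
        ring
      rw [h14, h15]
      have h16 : Complex.exp (Complex.I * ((2 * fr a : ℕ) : ℂ) * t)
          = Complex.exp (Complex.I * fr a * ((2 * t : ℝ) : ℂ)) := by
        congr 1
        push_cast
        ring
      rw [h16]
      generalize (1 - (2 * fr a : ℂ) ^ 2) = D at hnz ⊢
      field_simp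
      push_cast
      ring
    rw [h9, Complex.re_ofReal_mul] at h8
    rcases mul_eq_zero.1 h8 with h17 | h17
    · exact absurd h17 (by simpa using hη)
    · exact h17

/-- There are nondegenerate trigonometric curves in every dimension `n ≥ 2`. -/
theorem nondeg_two : Nondeg (n := 2) (fun _ : Unit => 1) ![fun _ => 1, fun _ => -Complex.I] := by
  intro t q hqd hq
  have h0 := hq 0
  have h1 := hq 1
  simp only [Matrix.cons_val_zero, Matrix.cons_val_one, Fintype.sum_unique, Nat.cast_one, mul_one,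
    one_mul] at h0 h1
  apply eq_zero_of_aeval_I (by simpa using hqd)
  have hw : Complex.I * aeval Complex.I q * Complex.exp (Complex.I * t) = 0 := by
    apply Complex.ext
    · simpa using h0
    · have : -Complex.I * Complex.I * aeval Complex.I q * Complex.exp (Complex.I * t)
        = -Complex.I * (Complex.I * aeval Complex.I q * Complex.exp (Complex.I * t)) := by ring
      rw [this] at h1
      rw [Complex.mul_re] at h1
      simpa using h1
  simpa [Complex.exp_ne_zero] using hw

/-- frequencies of the curve in `ℝ³` -/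
def fr3 : Fin 3 → ℕ := ![1, 2, 3]

/-- coefficients of the derivative `(cos 2t + cos t, sin 2t - sin t, cos 3t)` -/
noncomputable def w3 : Fin 3 → Fin 3 → ℂ :=
  ![![1, 1, 0], ![Complex.I, -Complex.I, 0], ![0, 0, 1]]

theorem re_aux (a b x : ℝ) :
    ((((a : ℂ) + b * Complex.I)) * Complex.exp (x * Complex.I)).re = a * cos x - b * sin x := by
  rw [Complex.mul_re, Complex.exp_ofReal_mul_I_re, Complex.exp_ofReal_mul_I_im]
  simp

theorem im_aux (a b x : ℝ) :
    ((((a : ℂ) + b * Complex.I)) * Complex.exp (x * Complex.I)).im = a * sin x + b * cos x := by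
  rw [Complex.mul_im, Complex.exp_ofReal_mul_I_re, Complex.exp_ofReal_mul_I_im]
  simp

theorem nondeg_three :
    Nondeg (n := 3) fr3 (fun i a => w3 i a / (Complex.I * fr3 a)) := by
  intro t q hqd hq
  obtain ⟨c0, c1, c2, rfl⟩ : ∃ c0 c1 c2 : ℝ, q = C c0 + C c1 * X + C c2 * X ^ 2 := by
    refine ⟨q.coeff 0, q.coeff 1, q.coeff 2, ?_⟩
    have h3 : q.natDegree < 3 := by
      by_cases h0 : q = 0
      · simp [h0]
      · rw [degree_eq_natDegree h0] at hqd
        exact_mod_cast hqd
    conv_lhs => rw [q.as_sum_range' 3 h3]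
    simp [Finset.sum_range_succ, ← C_mul_X_pow_eq_monomial]
  have hval : ∀ f : ℕ, aeval (Complex.I * (f : ℂ)) (C c0 + C c1 * X + C c2 * X ^ 2)
      = ((c0 - c2 * f ^ 2 : ℝ) : ℂ) + ((c1 * f : ℝ) : ℂ) * Complex.I := by
    intro f
    simp only [map_add, map_mul, aeval_C, aeval_X, map_pow, Complex.coe_algebraMap]
    push_cast
    linear_combination ((c2 : ℂ) * f ^ 2) * Complex.I_sq
  have key : ∀ i, (∑ a, w3 i a * ((((c0 - c2 * (fr3 a : ℝ) ^ 2 : ℝ) : ℂ) +
      ((c1 * (fr3 a : ℝ) : ℝ) : ℂ) * Complex.I) *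
      Complex.exp (((fr3 a * t : ℝ) : ℂ) * Complex.I))).re = 0 := by
    intro i
    have h := hq i
    rw [← h]
    congr 1
    refine Finset.sum_congr rfl fun a _ => ?_
    have hne : (Complex.I * (fr3 a : ℂ)) ≠ 0 := by
      refine mul_ne_zero Complex.I_ne_zero ?_
      fin_cases a <;> simp [fr3]
    rw [hval, div_mul_cancel₀ _ hne, mul_assoc]
    congr 3
    push_cast
    ring
  have h0 := key 0
  have h1 := key 1
  have h2 := key 2
  simp only [Fin.sum_univ_three, w3, fr3, Matrix.cons_val_zero, Matrix.cons_val_one,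
    Matrix.cons_val, one_mul, zero_mul, add_zero, zero_add, Complex.add_re, re_aux,
    neg_mul, Complex.neg_re, Complex.I_mul_re, im_aux] at h0 h1 h2
  push_cast at h0 h1 h2
  have r1 : cos t ^ 2 + sin t ^ 2 = 1 := cos_sq_add_sin_sq t
  have r2 : cos (2 * t) ^ 2 + sin (2 * t) ^ 2 = 1 := cos_sq_add_sin_sq _
  have r3 : cos (2 * t) * cos t - sin (2 * t) * sin t = cos (3 * t) := by
    rw [← cos_add]; congr 1; ring
  have r4 : sin (2 * t) * cos t + cos (2 * t) * sin t = sin (3 * t) := by
    rw [← sin_add]; congr 1; ring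
  have r5 : cos (3 * t) ^ 2 + sin (3 * t) ^ 2 = 1 := cos_sq_add_sin_sq _
  simp only [one_mul] at h0 h1 h2
  generalize cos (2 * t) = C2 at *
  generalize sin (2 * t) = S2 at *
  generalize cos (3 * t) = C3 at *
  generalize sin (3 * t) = S3 at *
  generalize cos t = C1 at *
  generalize sin t = S1 at *
  have k1 : (C2 + C1) * (2 * C2 - C1) - (S2 - S1) * (-2 * S2 - S1) = 1 + C3 := by
    linear_combination 2 * r2 - r1 + r3
  have k2 : (C2 + C1) * (-4 * S2 + S1) - (S2 - S1) * (-4 * C2 - C1) = -3 * S3 := by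
    linear_combination -3 * r4
  have k3 : (-2 * S2 - S1) * (-4 * S2 + S1) - (2 * C2 - C1) * (-4 * C2 - C1) = 7 - 2 * C3 := by
    linear_combination 8 * r2 - r1 - 2 * r3
  have e0 : c0 * (C2 + C1) + c1 * (-2 * S2 - S1) + c2 * (-4 * C2 - C1) = 0 := by
    linear_combination h0
  have e1 : c0 * (S2 - S1) + c1 * (2 * C2 - C1) + c2 * (-4 * S2 + S1) = 0 := by
    linear_combination h1
  have e2 : c0 * C3 + c1 * (-3 * S3) + c2 * (-9 * C3) = 0 := by
    linear_combination h2
  have hD : C3 * (7 - 2 * C3) - (-3 * S3) * (-3 * S3) + (-9 * C3) * (1 + C3)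
      = -(9 + 2 * C3 + 2 * C3 ^ 2) := by
    linear_combination (-9) * r5
  have hDne : -(9 + 2 * C3 + 2 * C3 ^ 2) ≠ 0 := by
    nlinarith [sq_nonneg (C3 + 1)]
  have s1 : c0 * (-3 * S3) + c1 * (7 - 2 * C3) = 0 := by
    linear_combination (-4 * S2 + S1) * e0 - (-4 * C2 - C1) * e1 - c0 * k2 - c1 * k3
  have s2 : c0 * (1 + C3) - c2 * (7 - 2 * C3) = 0 := by
    linear_combination (2 * C2 - C1) * e0 - (-2 * S2 - S1) * e1 - c0 * k1 + c2 * k3
  have z0 : c0 * (-(9 + 2 * C3 + 2 * C3 ^ 2)) = 0 := by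
    linear_combination (7 - 2 * C3) * e2 + 3 * S3 * s1 - 9 * C3 * s2 - c0 * hD
  have hc0 : c0 = 0 := (mul_eq_zero.1 z0).resolve_right hDne
  have hk : (7 - 2 * C3) ≠ 0 := by nlinarith [sq_nonneg S3]
  subst hc0
  have hc1 : c1 = 0 := (mul_eq_zero.1 (by linear_combination s1 : c1 * (7 - 2 * C3) = 0)).resolve_right hk
  have hc2 : c2 = 0 := (mul_eq_zero.1 (by linear_combination -s2 : c2 * (7 - 2 * C3) = 0)).resolve_right hk
  simp [hc1, hc2]

theorem exists_nondeg (n : ℕ) (hn : 2 ≤ n) : ∃ (ι : Type) (_ : Fintype ι) (fr : ι → ℕ)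
    (z : Fin n → ι → ℂ), Nondeg fr z := by
  induction n using Nat.strong_induction_on with
  | _ n ih =>
    have hcases : n = 2 ∨ n = 3 ∨ ∃ m : ℕ, 2 ≤ m ∧ n = m + 2 := by
      by_cases h2 : n = 2
      · exact Or.inl h2
      by_cases h3 : n = 3
      · exact Or.inr (Or.inl h3)
      exact Or.inr (Or.inr ⟨n - 2, by omega, by omega⟩)
    rcases hcases with rfl | rfl | ⟨m, hm, rfl⟩
    · exact ⟨_, _, _, _, nondeg_two⟩
    · exact ⟨_, _, _, _, nondeg_three⟩
    · obtain ⟨ι, _, fr, z, h⟩ := ih m (by omega) hm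
      exact ⟨_, _, _, _, h.susp one_ne_zero⟩

theorem circleCurve_eq (fr : ι → ℕ) (z : Fin n → ι → ℂ) :
    circleCurve (n + 2) 1 = G (freq fr) (susp fr z 0) 0 := by
  funext t
  ext i
  rw [G_apply]
  have h1 : ∀ x : ℝ, (Complex.exp (Complex.I * x)).re = cos x := by
    intro x; rw [mul_comm, Complex.exp_ofReal_mul_I_re]
  have h2 : ∀ x : ℝ, (Complex.exp (Complex.I * x)).im = sin x := by
    intro x; rw [mul_comm, Complex.exp_ofReal_mul_I_im]
  refine Fin.cases ?_ (fun i => Fin.cases ?_ (fun i => ?_) i) i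
  · simp [circleCurve, susp, freq, Fintype.sum_option, h1]
  · simp [circleCurve, susp, freq, Fintype.sum_option, h2]
  · simp [circleCurve, susp, freq, Fintype.sum_option]

theorem G_susp_sub (fr : ι → ℕ) (z : Fin n → ι → ℂ) (η : ℝ) (k : ℕ) (t : ℝ) :
    G (freq fr) (susp fr z η) k t - G (freq fr) (susp fr z 0) k t
      = η • (G (freq fr) (susp fr z 1) k t - G (freq fr) (susp fr z 0) k t) := by
  ext i
  simp only [PiLp.sub_apply, PiLp.smul_apply, G_apply, smul_eq_mul]
  refine Fin.cases ?_ (fun i => Fin.cases ?_ (fun i => ?_) i) i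
  · simp [susp]
  · simp [susp]
  · simp only [susp, Fin.cons_succ, Fintype.sum_option, Option.elim, Complex.ofReal_zero, zero_mul,
      Finset.sum_const_zero, add_zero, Complex.zero_re, sub_zero, zero_add, Complex.ofReal_one,
      one_mul]
    rw [← Complex.re_ofReal_mul, Finset.mul_sum]
    congr 1
    refine Finset.sum_congr rfl fun a _ => ?_
    ring

end trig

/-- **`μ(n) = 1` for every `n ≥ 4`**: the least `m ≥ 1` such that every `C^∞`-neighbourhood of
the `m`-fold unit circle of a plane in `ℝⁿ` contains a nondegenerate closed curve is `1`. -/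
theorem result (n : ℕ) (hn : 4 ≤ n) : IsLeast {m : ℕ | 1 ≤ m ∧ Perturbable n m} 1 := by
  refine ⟨⟨le_rfl, ?_⟩, fun m hm => hm.1⟩
  obtain ⟨m, rfl⟩ : ∃ m : ℕ, n = m + 2 := ⟨n - 2, by omega⟩
  obtain ⟨ι, _, fr, z, h⟩ := exists_nondeg m (by omega)
  intro K ε hε
  have hb : ∀ k, ∃ M : ℝ, ∀ t, ‖G (freq fr) (susp fr z 1) k t
      - G (freq fr) (susp fr z 0) k t‖ ≤ M := by
    intro k
    have hper : Function.Periodic (fun t => G (freq fr) (susp fr z 1) k t
      - G (freq fr) (susp fr z 0) k t) (2 * π) := by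
      intro t
      simp only
      rw [periodic_G _ _ k t, periodic_G _ _ k t]
    have hcont : Continuous (fun t => G (freq fr) (susp fr z 1) k t
      - G (freq fr) (susp fr z 0) k t) := by
      have h1 : ∀ w : Fin (m + 2) → Option ι → ℂ, Continuous (G (freq fr) w k) := fun w =>
        continuous_iff_continuousAt.2 fun t => (hasDerivAt_G (freq fr) w k t).continuousAt
      exact (h1 _).sub (h1 _)
    have hbd := hper.isBounded_of_continuous (by positivity) hcont
    obtain ⟨M, hM⟩ := hbd.exists_norm_le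
    exact ⟨M, fun t => hM _ ⟨t, rfl⟩⟩
  choose M hM using hb
  set S : ℝ := 1 + ∑ k ∈ Finset.range (K + 1), |M k| with hS
  have hSpos : 0 < S := by positivity
  refine ⟨G (freq fr) (susp fr z (ε / S)) 0, (h.susp (by positivity)).isNondegenerate,
    fun k hk t => ?_⟩
  rw [circleCurve_eq fr z, iteratedDeriv_G, iteratedDeriv_G, G_susp_sub, norm_smul,
    Real.norm_of_nonneg (by positivity)]
  have h2 : M k < S := by
    have h3 : |M k| ≤ ∑ k ∈ Finset.range (K + 1), |M k| :=
      Finset.single_le_sum (f := fun k => |M k|) (fun _ _ => abs_nonneg _)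
        (Finset.mem_range.2 (by omega))
    have := le_abs_self (M k)
    linarith
  calc ε / S * ‖G (freq fr) (susp fr z 1) k t - G (freq fr) (susp fr z 0) k t‖
      ≤ ε / S * M k := by gcongr; exact hM k t
    _ < ε / S * S := by gcongr
    _ = ε := by field_simp

end Pool.Agent.Results.MP_f07be6_gt.MuEqOne
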